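import Mathlib
import Pool.Agent.Q176.WeakDiscGen

/-!
# MP_82653f: no class of test spaces characterises UOK
-/

namespace Pool.Agent.Results.MP_82653f_gt.NoClassForUOK

open Set Topology Filter Q176.WeakDiscGen

universe u

/-- A class of topological spaces (a predicate on topological spaces). -/
abbrev SpaceClass : Type (u + 1) := (Z : Type u) → TopologicalSpace Z → Prop

/-- `H` is `C`-closed: `f ⁻¹' H` is closed for every `Z` in `C` and every continuous
`f : Z → X`. -/
def CClosed (C : SpaceClass.{u}) {X : Type u} [TopologicalSpace X] (H : Set X) : Prop :=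
  ∀ (Z : Type u) (tZ : TopologicalSpace Z), C Z tZ →
    ∀ f : Z → X, Continuous f → IsClosed (f ⁻¹' H)

/-- `X` is `C`-Hausdorff: the diagonal is `C`-closed in `X × X`. -/
def CHausdorff (C : SpaceClass.{u}) (X : Type u) [TopologicalSpace X] : Prop :=
  CClosed C (diagonal X)

/-- `X` is UOK: for every non-compact locally compact Hausdorff space `L` and every continuous
`f : L → X` there is at most one continuous `g : OnePoint L → X` extending `f`. -/
def UOK (X : Type u) [TopologicalSpace X] : Prop :=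
  ∀ (L : Type u) [TopologicalSpace L] [LocallyCompactSpace L] [T2Space L] [NoncompactSpace L]
    (f : L → X), Continuous f → ∀ g h : OnePoint L → X, Continuous g → Continuous h →
      (∀ x : L, g x = f x) → (∀ x : L, h x = f x) → g = h

/-! ### Two copies of `K` glued along `D` -/

/-- Two copies of `K` glued along `D`. -/
inductive Dbl {K : Type u} (D : Set K) : Type u
  | zero (x : K) : Dbl D
  | one (x : K) (h : x ∉ D) : Dbl D

namespace Dbl

variable {K : Type u} {D : Set K}

/-- the projection to `K` -/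
def r : Dbl D → K
  | zero x => x
  | one x _ => x

open Classical in
/-- the second inclusion -/
noncomputable def j1 (D : Set K) (x : K) : Dbl D := if h : x ∈ D then zero x else one x h

theorem j1_of_mem {x : K} (h : x ∈ D) : j1 D x = zero x := by simp [j1, h]

theorem j1_of_notMem {x : K} (h : x ∉ D) : j1 D x = one x h := by simp [j1, h]

noncomputable instance [TopologicalSpace K] : TopologicalSpace (Dbl D) :=
  TopologicalSpace.coinduced zero inferInstance ⊔ TopologicalSpace.coinduced (j1 D) inferInstance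

theorem isOpen_iff [TopologicalSpace K] {U : Set (Dbl D)} :
    IsOpen U ↔ IsOpen (zero ⁻¹' U) ∧ IsOpen (j1 D ⁻¹' U) := Iff.rfl

theorem continuous_zero [TopologicalSpace K] : Continuous (zero : K → Dbl D) :=
  ⟨fun _ hU => (isOpen_iff.1 hU).1⟩

theorem continuous_j1 [TopologicalSpace K] : Continuous (j1 D) :=
  ⟨fun _ hU => (isOpen_iff.1 hU).2⟩

theorem r_j1 (x : K) : r (j1 D x) = x := by
  by_cases h : x ∈ D
  · rw [j1_of_mem h]; rfl
  · rw [j1_of_notMem h]; rfl

theorem continuous_r [TopologicalSpace K] : Continuous (r : Dbl D → K) := by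
  refine ⟨fun U hU => isOpen_iff.2 ⟨?_, ?_⟩⟩
  · exact hU
  · have h : j1 D ⁻¹' (r ⁻¹' U) = U := by
      ext x
      simp [r_j1]
    rw [h]
    exact hU

/-- neighbourhood of the points of the first copy -/
def W0 (D B : Set K) : Set (Dbl D) := {z | ∀ y h, z = one y h → y ∈ B}

/-- neighbourhood of the points of the second copy -/
def W1 (D B : Set K) : Set (Dbl D) := {z | ∀ y, z = zero y → y ∈ B}

theorem isOpen_W0 [TopologicalSpace K] {B : Set K} (hB : IsOpen B) (hDB : D ⊆ B) :
    IsOpen (W0 D B) := by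
  refine isOpen_iff.2 ⟨?_, ?_⟩
  · have h : zero ⁻¹' (W0 D B) = univ := by
      ext x
      simp [W0]
    rw [h]
    exact isOpen_univ
  · have h : j1 D ⁻¹' (W0 D B) = B := by
      ext x
      by_cases hx : x ∈ D
      · simp only [mem_preimage, j1_of_mem hx, W0]
        refine ⟨fun _ => hDB hx, fun _ => ?_⟩
        intro y h hy
        exact absurd hy (by simp)
      · simp only [mem_preimage, j1_of_notMem hx, W0]
        refine ⟨fun h => h x hx rfl, fun hxB => ?_⟩
        intro y h hy
        injection hy with hy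
        exact hy ▸ hxB
    rw [h]
    exact hB

theorem isOpen_W1 [TopologicalSpace K] {B : Set K} (hB : IsOpen B) (hDB : D ⊆ B) :
    IsOpen (W1 D B) := by
  refine isOpen_iff.2 ⟨?_, ?_⟩
  · have h : zero ⁻¹' (W1 D B) = B := by
      ext x
      simp only [mem_preimage, W1]
      refine ⟨fun h => h x rfl, fun hxB => ?_⟩
      intro y hy
      injection hy with hy
      exact hy ▸ hxB
    rw [h]
    exact hB
  · have h : j1 D ⁻¹' (W1 D B) = univ := by
      ext x
      by_cases hx : x ∈ D
      · simp only [mem_preimage, j1_of_mem hx, W1, mem_univ, iff_true]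
        intro y hy
        injection hy with hy
        exact hy ▸ hDB hx
      · simp only [mem_preimage, j1_of_notMem hx, W1, mem_univ, iff_true]
        intro y hy
        exact absurd hy (by simp)
    rw [h]
    exact isOpen_univ

theorem mem_of_W {B : Set K} {z : Dbl D} (h0 : z ∈ W0 D B) (h1 : z ∈ W1 D B) : r z ∈ B := by
  cases z with
  | zero x => exact h1 x rfl
  | one x h => exact h0 x h rfl

theorem zero_mem_W0 {B : Set K} (x : K) : (zero x : Dbl D) ∈ W0 D B := by
  intro y h hy
  exact absurd hy (by simp)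

theorem one_mem_W1 {B : Set K} (x : K) (h : x ∉ D) : (one x h : Dbl D) ∈ W1 D B := by
  intro y hy
  exact absurd hy (by simp)

end Dbl

open Dbl OnePoint

/-- Consequences of two maps to `Dbl D` from a one-point compactification which agree off the
point at infinity. -/
theorem near {K : Type u} [TopologicalSpace K] [T2Space K] {D : Set K} {L : Type u}
    [TopologicalSpace L] [NoncompactSpace L] (g h : OnePoint L → Dbl D) (hg : Continuous g)
    (hh : Continuous h) (hL : ∀ x : L, g x = h x) (hne : g ≠ h) :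
    r (g ∞) ∉ D ∧ ∀ B : Set K, IsOpen B → D ⊆ B →
      ∀ᶠ y in 𝓝 (∞ : OnePoint L), y ≠ ∞ → r (g y) ∈ B := by
  have hinf : g ∞ ≠ h ∞ := by
    intro he
    apply hne
    funext y
    induction y using OnePoint.rec with
    | infty => exact he
    | coe x => exact hL x
  have hr : r ∘ g = r ∘ h := by
    apply (OnePoint.denseRange_coe (X := L)).equalizer (continuous_r.comp hg)
      (continuous_r.comp hh)
    funext x
    show r (g x) = r (h x)
    rw [hL x]
  have hrinf : r (g ∞) = r (h ∞) := congrFun hr ∞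
  have key : ∀ g h : OnePoint L → Dbl D, Continuous g → Continuous h →
      (∀ x : L, g x = h x) → ∀ (x : K) (hx : x ∉ D), g ∞ = zero x → h ∞ = one x hx →
      ∀ B : Set K, IsOpen B → D ⊆ B → ∀ᶠ y in 𝓝 (∞ : OnePoint L), y ≠ ∞ → r (g y) ∈ B := by
    intro g h hg hh hL x hx hgx hhx B hB hDB
    have h0 : ∀ᶠ y in 𝓝 (∞ : OnePoint L), g y ∈ W0 D B :=
      hg.continuousAt.eventually ((isOpen_W0 hB hDB).mem_nhds (hgx ▸ zero_mem_W0 x))
    have h1 : ∀ᶠ y in 𝓝 (∞ : OnePoint L), h y ∈ W1 D B :=
      hh.continuousAt.eventually ((isOpen_W1 hB hDB).mem_nhds (hhx ▸ one_mem_W1 x hx))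
    filter_upwards [h0, h1] with y hy0 hy1 hne
    obtain ⟨z, rfl⟩ := OnePoint.ne_infty_iff_exists.1 hne
    rw [← hL z] at hy1
    exact mem_of_W hy0 hy1
  cases hg0 : g ∞ with
  | zero x =>
    cases hh0 : h ∞ with
    | zero y =>
      exfalso
      rw [hg0, hh0] at hrinf hinf
      exact hinf (congrArg zero hrinf)
    | one y hy =>
      rw [hg0, hh0] at hrinf
      have hxy : x = y := hrinf
      subst hxy
      refine ⟨hy, fun B hB hDB => ?_⟩
      exact key g h hg hh hL x hy hg0 hh0 B hB hDB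
  | one x hx =>
    cases hh0 : h ∞ with
    | zero y =>
      rw [hg0, hh0] at hrinf
      have hxy : x = y := hrinf
      subst hxy
      refine ⟨hx, fun B hB hDB => ?_⟩
      have := key h g hh hg (fun z => (hL z).symm) x hx hh0 hg0 B hB hDB
      filter_upwards [this] with z hz hne
      have h1 : r (g z) = r (h z) := congrFun hr z
      rw [h1]
      exact hz hne
    | one y hy =>
      exfalso
      rw [hg0, hh0] at hrinf hinf
      have hxy : x = y := hrinf
      subst hxy
      exact hinf rfl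

/-- In a compact Hausdorff space a closed neighbourhood can be chosen inside any neighbourhood. -/
theorem lemA {K : Type u} [TopologicalSpace K] [CompactSpace K] [T2Space K]
    (hK : ∀ (s : ℕ → K) (x : K), Tendsto s atTop (𝓝 x) → ∀ᶠ n in atTop, s n = x) {D : Set K}
    (hD : IsDisc D) {K' : Type u} [TopologicalSpace K'] [CompactSpace K'] [T2Space K'] (q : K')
    (hq : ¬ IsOpen ({q} : Set K')) (R : K' → K) (hR : Continuous R) (hRq : R q ∉ D)
    (hB : ∀ B : Set K, IsOpen B → D ⊆ B → ∀ᶠ y in 𝓝 q, y ≠ q → R y ∈ B) : False := by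
  choose! O hO1 hO2 using hD
  have hB1 : IsOpen ((⋃ d ∈ D, O d) \ {R q}) :=
    (isOpen_biUnion hO1).sdiff isClosed_singleton
  have hB2 : D ⊆ (⋃ d ∈ D, O d) \ {R q} := by
    intro d hd
    refine ⟨mem_biUnion hd ?_, ?_⟩
    · have : d ∈ O d ∩ D := by
        rw [hO2 d hd]
        rfl
      exact this.1
    · intro h
      rw [mem_singleton_iff] at h
      exact hRq (h ▸ hd)
  obtain ⟨G1, hG1n, hG1c, hG1⟩ : ∃ G ∈ 𝓝 q, IsClosed G ∧
      ∀ y ∈ G, y ≠ q → R y ∈ (⋃ d ∈ D, O d) \ {R q} := by
    obtain ⟨G, hG, hGc, hGs⟩ := exists_mem_nhds_isClosed_subset (hB _ hB1 hB2)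
    exact ⟨G, hG, hGc, fun y hy => hGs hy⟩
  have hclD : ∀ z ∈ closure D, z ∈ (⋃ d ∈ D, O d) → z ∈ D := by
    intro z hz hzO
    obtain ⟨d, hd, hzd⟩ := mem_iUnion₂.1 hzO
    by_contra hzD
    have h1 : z ∈ O d \ {d} := ⟨hzd, fun h => hzD (by rw [mem_singleton_iff] at h; exact h ▸ hd)⟩
    obtain ⟨w, hw1, hw2⟩ := mem_closure_iff.1 hz _ ((hO1 d hd).sdiff isClosed_singleton) h1
    have : w ∈ O d ∩ D := ⟨hw1.1, hw2⟩
    rw [hO2 d hd] at this
    exact hw1.2 this
  have hTc : IsCompact (R '' G1) := hG1c.isCompact.image hR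
  have hT : ∀ z ∈ R '' G1, z ∈ closure D → z ∈ D ∨ z = R q := by
    rintro _ ⟨y, hy, rfl⟩ hz
    by_cases hyq : y = q
    · right; rw [hyq]
    · left
      exact hclD _ hz (hG1 y hy hyq).1
  -- finiteness
  have hfin : (R '' G1 ∩ D).Finite := by
    by_contra hinf
    let s := Set.Infinite.natEmbedding (R '' G1 ∩ D) hinf
    have hs : Tendsto (fun n => (s n : K)) atTop (𝓝 (R q)) := by
      rw [tendsto_nhds]
      intro U hU hqU
      have hc : IsCompact ((R '' G1 ∩ closure D) \ U) :=
        (hTc.inter_right isClosed_closure).diff hU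
      have hcD : (R '' G1 ∩ closure D) \ U ⊆ D := by
        rintro z ⟨⟨hz1, hz2⟩, hz3⟩
        rcases hT z hz1 hz2 with h | h
        · exact h
        · exact absurd (h ▸ hqU) hz3
      have hfin' : ((R '' G1 ∩ closure D) \ U).Finite := by
        obtain ⟨t, ht1⟩ := hc.elim_nhds_subcover' (fun d _ => O d) (fun d hd => by
          have hdD := hcD hd
          refine (hO1 d hdD).mem_nhds ?_
          have : d ∈ O d ∩ D := by
            rw [hO2 d hdD]
            rfl
          exact this.1)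
        refine (t.finite_toSet.image Subtype.val).subset ?_
        intro z hz
        obtain ⟨d, hd, hzd⟩ := mem_iUnion₂.1 (ht1 hz)
        have hdD := hcD d.2
        have : z ∈ O d ∩ D := ⟨hzd, hcD hz⟩
        rw [hO2 _ hdD] at this
        rw [mem_singleton_iff] at this
        exact ⟨d, hd, this.symm⟩
      have hfs : {n | (s n : K) ∈ (R '' G1 ∩ closure D) \ U}.Finite :=
        hfin'.preimage (fun a _ b _ hab => s.injective (Subtype.ext hab))
      have := hfs.compl_mem_cofinite
      rw [Nat.cofinite_eq_atTop] at this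
      filter_upwards [this] with n hn
      by_contra hnU
      exact hn ⟨⟨(s n).2.1, subset_closure (s n).2.2⟩, hnU⟩
    obtain ⟨n, hn⟩ := (hK _ _ hs).exists
    exact hRq (hn ▸ (s n).2.2)
  -- second neighbourhood
  have hG2' : G1 ∩ R ⁻¹' (R '' G1 ∩ D)ᶜ ∈ 𝓝 q :=
    inter_mem hG1n ((hfin.isClosed.isOpen_compl.preimage hR).mem_nhds (fun h => hRq h.2))
  obtain ⟨G2, hG2n, hG2c, hG2s⟩ := exists_mem_nhds_isClosed_subset hG2'
  have hG2D : ∀ y ∈ G2, R y ∉ D := by
    intro y hy hyD
    exact (hG2s hy).2 ⟨⟨y, (hG2s hy).1, rfl⟩, hyD⟩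
  have hB3 : IsOpen ((R '' G2)ᶜ) := (hG2c.isCompact.image hR).isClosed.isOpen_compl
  have hB4 : D ⊆ (R '' G2)ᶜ := by
    rintro d hd ⟨y, hy, rfl⟩
    exact hG2D y hy hd
  have hev := hB _ hB3 hB4
  apply hq
  have h1 : ({q} : Set K') ∈ 𝓝 q := by
    filter_upwards [hev, hG2n] with y hy hyG
    by_contra hyq
    exact hy hyq ⟨y, hyG, rfl⟩
  rw [isOpen_singleton_iff_nhds_eq_pure]
  exact le_antisymm (le_pure_iff.2 h1) (pure_le_nhds q)

/-- the point at infinity is not isolated. -/
theorem infty_notOpen (L : Type u) [TopologicalSpace L] [NoncompactSpace L] :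
    ¬ IsOpen ({∞} : Set (OnePoint L)) := by
  intro h
  obtain ⟨_, ha, ⟨a, rfl⟩⟩ := dense_iff_inter_open.1 (OnePoint.denseRange_coe (X := L)) _ h ⟨∞, rfl⟩
  exact OnePoint.coe_ne_infty a (mem_singleton_iff.1 ha)

theorem UOK_dbl {K : Type u} [TopologicalSpace K] [CompactSpace K] [T2Space K]
    (hK : ∀ (s : ℕ → K) (x : K), Tendsto s atTop (𝓝 x) → ∀ᶠ n in atTop, s n = x) {D : Set K}
    (hD : IsDisc D) : UOK (Dbl D) := by
  intro L _ _ _ _ f hf g h hg hh hgf hhf
  by_contra hne
  obtain ⟨h1, h2⟩ := near g h hg hh (fun x => (hgf x).trans (hhf x).symm) hne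
  exact lemA hK hD (∞ : OnePoint L) (infty_notOpen L) (fun y => r (g y)) (continuous_r.comp hg)
    h1 h2

theorem not_UOK_dbl {K : Type u} [TopologicalSpace K] [CompactSpace K] [T2Space K] (p : K)
    (hp : ¬ IsOpen ({p} : Set K)) : ¬ UOK (Dbl ({p}ᶜ : Set K)) := by
  intro hU
  haveI : LocallyCompactSpace ↥({p}ᶜ : Set K) := isOpen_compl_singleton.locallyCompactSpace
  haveI : NoncompactSpace ↥({p}ᶜ : Set K) := by
    constructor
    intro hc
    apply hp
    have h1 : IsCompact ({p}ᶜ : Set K) := isCompact_iff_isCompact_univ.2 hc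
    rw [← compl_compl ({p} : Set K)]
    exact h1.isClosed.isOpen_compl
  let φ : OnePoint ↥({p}ᶜ : Set K) ≃ₜ K :=
    OnePoint.equivOfIsEmbeddingOfRangeEq p Subtype.val Topology.IsEmbedding.subtypeVal
      Subtype.range_coe
  have hφ1 : ∀ x : ↥({p}ᶜ : Set K), φ x = x.1 := fun x => rfl
  have hφ2 : φ ∞ = p := rfl
  have h1 := hU ↥({p}ᶜ : Set K) (fun x => zero x.1)
    (continuous_zero.comp continuous_subtype_val) (fun y => zero (φ y)) (fun y => j1 _ (φ y))
    (continuous_zero.comp φ.continuous) (continuous_j1.comp φ.continuous)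
    (fun x => by rw [hφ1]) (fun x => by rw [hφ1]; exact j1_of_mem x.2)
  have h2 := congrFun h1 ∞
  simp only [hφ2] at h2
  rw [j1_of_notMem (by simp)] at h2
  exact absurd h2 (by simp)

/-- The set `X` with the finest topology making `a` and `b` continuous. -/
def Cod {Z X : Type u} (_ _ : Z → X) : Type u := X

/-- the identity map to `Cod a b` -/
def toCod {Z X : Type u} (a b : Z → X) (x : X) : Cod a b := x

/-- the identity map from `Cod a b` -/
def ofCod {Z X : Type u} (a b : Z → X) (x : Cod a b) : X := x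

instance {Z X : Type u} [TopologicalSpace Z] (a b : Z → X) : TopologicalSpace (Cod a b) :=
  TopologicalSpace.coinduced (fun z => toCod a b (a z)) inferInstance ⊔
    TopologicalSpace.coinduced (fun z => toCod a b (b z)) inferInstance

theorem main (K : Type u) [TopologicalSpace K] [CompactSpace K] [T2Space K]
    (hK : ∀ (s : ℕ → K) (x : K), Tendsto s atTop (𝓝 x) → ∀ᶠ n in atTop, s n = x) (p : K)
    (hp : ¬ IsOpen ({p} : Set K)) (C : SpaceClass.{u})
    (hC : ∀ (X : Type u) [TopologicalSpace X], CHausdorff C X ↔ UOK X) : False := by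
  have h1 : ¬ CHausdorff C (Dbl ({p}ᶜ : Set K)) := fun h => not_UOK_dbl p hp ((hC _).1 h)
  unfold CHausdorff CClosed at h1
  push Not at h1
  obtain ⟨Z, tZ, hZ, f, hf, hncl⟩ := h1
  let a : Z → Dbl ({p}ᶜ : Set K) := fun z => (f z).1
  let b : Z → Dbl ({p}ᶜ : Set K) := fun z => (f z).2
  have ha : Continuous a := continuous_fst.comp hf
  have hb : Continuous b := continuous_snd.comp hf
  let i : Cod a b → Dbl ({p}ᶜ : Set K) := ofCod a b
  have hi : Continuous i := ⟨fun U hU => ⟨ha.isOpen_preimage U hU, hb.isOpen_preimage U hU⟩⟩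
  have ha' : Continuous (fun z => toCod a b (a z)) := ⟨fun U hU => hU.1⟩
  have hb' : Continuous (fun z => toCod a b (b z)) := ⟨fun U hU => hU.2⟩
  have hYC : ¬ CHausdorff C (Cod a b) := fun h =>
    hncl (h Z tZ hZ (fun z => (toCod a b (a z), toCod a b (b z))) (ha'.prodMk hb'))
  have hYU : ¬ UOK (Cod a b) := fun h => hYC ((hC _).2 h)
  unfold UOK at hYU
  push Not at hYU
  obtain ⟨L, tL, _, _, _, e, he, g, h, hg, hh, hge, hhe, hgh⟩ := hYU
  obtain ⟨hR1, hR2⟩ := near (i ∘ g) (i ∘ h) (hi.comp hg) (hi.comp hh)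
    (fun x => by
      show i (g x) = i (h x)
      rw [hge, hhe]) (fun hE => hgh hE)
  let R : OnePoint L → K := fun y => r (i (g y))
  have hR : Continuous R := continuous_r.comp (hi.comp hg)
  have hRp : R ∞ = p := by
    by_contra hne
    exact hR1 hne
  obtain ⟨G, hGn, hGc, hG⟩ := exists_mem_nhds_isClosed_subset
    (hR2 {p}ᶜ isOpen_compl_singleton Subset.rfl)
  have hGp : ∀ y ∈ G, y ≠ ∞ → R y ≠ p := fun y hy hne => hG hy hne
  have hQc : IsCompact (R '' G) := hGc.isCompact.image hR
  haveI : CompactSpace ↥(R '' G) := isCompact_iff_compactSpace.1 hQc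
  let p' : ↥(R '' G) := ⟨p, ∞, mem_of_mem_nhds hGn, hRp⟩
  have hp' : ¬ IsOpen ({p'} : Set ↥(R '' G)) := by
    intro ho
    obtain ⟨O, hO, hOp⟩ := isOpen_induced_iff.1 ho
    have hpO : p ∈ O := by
      have : p' ∈ Subtype.val ⁻¹' O := by
        rw [hOp]
        rfl
      exact this
    apply infty_notOpen L
    rw [isOpen_singleton_iff_nhds_eq_pure]
    refine le_antisymm (le_pure_iff.2 ?_) (pure_le_nhds _)
    have hn : R ⁻¹' O ∈ 𝓝 (∞ : OnePoint L) :=
      (hO.preimage hR).mem_nhds (by show R ∞ ∈ O; rw [hRp]; exact hpO)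
    filter_upwards [hn, hGn] with y hy1 hy2
    by_contra hne
    have h3 : (⟨R y, y, hy2, rfl⟩ : ↥(R '' G)) ∈ Subtype.val ⁻¹' O := hy1
    rw [hOp, mem_singleton_iff] at h3
    exact hGp y hy2 hne (congrArg Subtype.val h3)
  obtain ⟨D', hpD', hD', hpcl⟩ := exists_disc p' hp'
  let D : Set K := Subtype.val '' D'
  have hpD : p ∉ D := by
    rintro ⟨x, hx, hxp⟩
    apply hpD'
    have : x = p' := Subtype.ext hxp
    rwa [← this]
  have hD : IsDisc D := by
    rintro _ ⟨d, hd, rfl⟩
    obtain ⟨O', hO', hOd⟩ := hD' d hd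
    obtain ⟨O, hO, rfl⟩ := isOpen_induced_iff.1 hO'
    refine ⟨O, hO, ?_⟩
    apply Subset.antisymm
    · rintro _ ⟨hx1, ⟨x, hx2, rfl⟩⟩
      have : x ∈ Subtype.val ⁻¹' O ∩ D' := ⟨hx1, hx2⟩
      rw [hOd, mem_singleton_iff] at this
      rw [this]
      rfl
    · rw [singleton_subset_iff]
      have : d ∈ Subtype.val ⁻¹' O ∩ D' := by
        rw [hOd]
        rfl
      exact ⟨this.1, ⟨d, this.2, rfl⟩⟩
  have hCl : ∀ w : Z → K, Continuous w → IsClosed (w ⁻¹' D) := by
    intro w hw
    have h3 : CHausdorff C (Dbl D) := (hC _).2 (UOK_dbl hK hD)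
    have h4 := h3 Z tZ hZ (fun z => (zero (w z), j1 D (w z)))
      ((Dbl.continuous_zero.comp hw).prodMk (continuous_j1.comp hw))
    have h5 : (fun z => ((zero (w z) : Dbl D), j1 D (w z))) ⁻¹' diagonal (Dbl D) = w ⁻¹' D := by
      ext z
      by_cases hz : w z ∈ D
      · simp [hz, j1_of_mem hz]
      · simp [hz, j1_of_notMem hz]
    rwa [h5] at h4
  have hY : IsClosed ((fun y => r (i y)) ⁻¹' D : Set (Cod a b)) := by
    rw [← isOpen_compl_iff]
    exact ⟨(hCl (fun z => r (a z)) (continuous_r.comp ha)).isOpen_compl,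
      (hCl (fun z => r (b z)) (continuous_r.comp hb)).isOpen_compl⟩
  have hRD : IsClosed (R ⁻¹' D) := hY.preimage hg
  have hDc : IsCompact (R '' (R ⁻¹' D ∩ G)) := (hRD.inter hGc).isCompact.image hR
  have hDe : R '' (R ⁻¹' D ∩ G) = D := by
    apply Subset.antisymm
    · rintro _ ⟨y, hy, rfl⟩
      exact hy.1
    · rintro _ ⟨⟨_, y, hy, rfl⟩, hd, rfl⟩
      exact ⟨y, ⟨⟨_, hd, rfl⟩, hy⟩, rfl⟩
  rw [hDe] at hDc
  apply hpD
  have h6 : p ∈ closure D := by
    have := image_closure_subset_closure_image (f := (Subtype.val : ↥(R '' G) → K)) (s := D')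
      continuous_subtype_val (mem_image_of_mem _ hpcl)
    exact this
  rwa [hDc.isClosed.closure_eq] at h6

/-- **No class of topological spaces characterises UOK**: for every class `C` of topological
spaces, `C`-Hausdorff and UOK are different properties. -/
theorem result : ¬ ∃ C : SpaceClass.{u}, ∀ (X : Type u) [TopologicalSpace X],
    CHausdorff C X ↔ UOK X := by
  rintro ⟨C, hC⟩
  haveI : Infinite (ULift.{u} ℕ) := inferInstance
  refine main (Ultrafilter (ULift.{u} ℕ)) ultrafilter_noConv (Filter.hyperfilter (ULift.{u} ℕ))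
    (ultrafilter_notIsolated _ ?_) C hC
  intro a ha
  have h1 : ({a} : Set (ULift.{u} ℕ)) ∈ (pure a : Ultrafilter (ULift.{u} ℕ)) := by
    exact mem_pure.2 rfl
  rw [← ha] at h1
  exact Filter.notMem_hyperfilter_of_finite (finite_singleton a) h1

end Pool.Agent.Results.MP_82653f_gt.NoClassForUOK
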